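import Mathlib
import Pool.Agent.N848.LT.Stm

set_option autoImplicit false

/-!
LT/INT (helper356): norms and traces of elements integral at all primes above `u`.
-/

namespace Pool.Agent.N356.LT

open NumberField IsDedekindDomain Module Pool.Agent.N848.LT

/-- a denominator prime to `u` -/
theorem exists_den (F K : Type) [Field F] [NumberField F] [Field K] [NumberField K] [Algebra F K]
    (u : HeightOneSpectrum (𝓞 F)) (t : K)
    (ht : ∀ v : HeightOneSpectrum (𝓞 K), Ab v u → v.valuation K t ≤ 1) :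
    ∃ d : 𝓞 F, d ∉ u.asIdeal ∧ ∃ s : 𝓞 K, (s : K) = algebraMap F K (d : F) * t := by
  let I : Ideal (𝓞 K) :=
    { carrier := {a | ∃ b : 𝓞 K, algebraMap (𝓞 K) K b = algebraMap (𝓞 K) K a * t}
      add_mem' := by
        rintro a a' ⟨b, hb⟩ ⟨b', hb'⟩
        refine ⟨b + b', ?_⟩
        rw [map_add, map_add, hb, hb', add_mul]
      zero_mem' := ⟨0, by simp⟩
      smul_mem' := by
        rintro c a ⟨b, hb⟩
        refine ⟨c * b, ?_⟩
        rw [smul_eq_mul, map_mul, map_mul, hb, mul_assoc] }
  by_contra hcon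
  push Not at hcon
  have hle : I.comap (algebraMap (𝓞 F) (𝓞 K)) ≤ u.asIdeal := by
    intro d hd
    by_contra hdu
    obtain ⟨b, hb⟩ := hd
    exact hcon d hdu b hb
  obtain ⟨Q, hIQ, hQ, hQu⟩ := Ideal.exists_ideal_over_prime_of_isIntegral u.asIdeal I hle
  have hQ0 : Q ≠ ⊥ := by
    rintro rfl
    apply u.ne_bot
    rw [← hQu]
    exact Ideal.comap_bot_of_injective _ (FaithfulSMul.algebraMap_injective (𝓞 F) (𝓞 K))
  obtain ⟨n, e, hne⟩ := (⟨Q, hQ, hQ0⟩ : HeightOneSpectrum (𝓞 K)).exists_primeCompl_mul_eq_of_integer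
    (K := K) t (ht ⟨Q, hQ, hQ0⟩ hQu)
  exact e.2 (hIQ ⟨n, by rw [mul_comm]; exact hne.symm⟩)

/-- a product of elements `1 + c x`, `x` integral -/
theorem prod_form {R E ι : Type} [CommRing R] [CommRing E] [Algebra R E] (c : E) (hc : IsIntegral R c)
    (s : Finset ι) (x : ι → E) (hx : ∀ i ∈ s, IsIntegral R (x i)) :
    ∃ r : E, IsIntegral R r ∧ ∏ i ∈ s, (1 + c * x i) = 1 + c * r := by
  classical
  induction s using Finset.induction_on with
  | empty => exact ⟨0, isIntegral_zero, by simp⟩
  | insert i s hi ih =>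
    obtain ⟨r, hr, hr2⟩ := ih fun j hj => hx j (Finset.mem_insert_of_mem hj)
    have h1 := hx i (Finset.mem_insert_self i s)
    refine ⟨x i + r + c * x i * r, (h1.add hr).add ((hc.mul h1).mul hr), ?_⟩
    rw [Finset.prod_insert hi, hr2]
    ring

theorem t_INT : S_INT := by
  intro F K _ _ _ _ _ u t ht
  obtain ⟨d, hd, s, hs⟩ := exists_den F K u t ht
  set R : Subring F := (u.valuation F).integer with hRdef
  have hR : ∀ x : F, IsIntegral R x → u.valuation F x ≤ 1 := fun x hx =>
    Valuation.Integers.mem_of_integral (Valuation.integer.integers _) hx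
  have hRi : ∀ x : F, u.valuation F x ≤ 1 → IsIntegral R x := by
    intro x hx
    exact isIntegral_algebraMap (R := R) (A := F) (x := ⟨x, hx⟩)
  have hint : IsIntegral R t := by
    have h1 : IsIntegral R (s : K) := (RingOfIntegers.isIntegral_coe s).tower_top
    have hdv : u.valuation F (d : F) = 1 := (HeightOneSpectrum.valuation_eq_one_iff_notMem u).2 hd
    have hd0 : (d : F) ≠ 0 := by
      intro h0
      rw [h0, map_zero] at hdv
      exact zero_ne_one hdv
    have h2 : IsIntegral R (algebraMap F K (d : F)⁻¹) := by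
      have h3 : (d : F)⁻¹ ∈ R := by
        change u.valuation F (d : F)⁻¹ ≤ 1
        rw [map_inv₀, hdv, inv_one]
      exact isIntegral_algebraMap (R := R) (A := K) (x := ⟨(d : F)⁻¹, h3⟩)
    have h4 : t = algebraMap F K (d : F)⁻¹ * (s : K) := by
      rw [hs, ← mul_assoc, ← map_mul, inv_mul_cancel₀ hd0, map_one, one_mul]
    rw [h4]
    exact h2.mul h1
  refine ⟨hR _ (Algebra.isIntegral_norm F hint), hR _ (Algebra.isIntegral_trace hint), ?_⟩
  intro c hc
  by_cases hc0 : c = 0
  · exact ⟨0, by simp, by rw [hc0]; simp⟩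
  let E := AlgebraicClosure F
  have hcE : IsIntegral R (algebraMap F E c) := (hRi c hc).algebraMap
  obtain ⟨r, hr, hr2⟩ := prod_form (R := R) (algebraMap F E c) hcE Finset.univ
    (fun σ : K →ₐ[F] E => σ t) (fun σ _ => by
      exact hint.map (σ.restrictScalars R))
  have hn : algebraMap F E (Algebra.norm F (1 + algebraMap F K c * t)) =
      1 + algebraMap F E c * r := by
    rw [Algebra.norm_eq_prod_embeddings F E, ← hr2]
    refine Finset.prod_congr rfl fun σ _ => ?_
    rw [map_add, map_mul, map_one, AlgHom.commutes]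
  have hcE0 : algebraMap F E c ≠ 0 := by
    rw [Ne, map_eq_zero]
    exact hc0
  refine ⟨(Algebra.norm F (1 + algebraMap F K c * t) - 1) / c, ?_, ?_⟩
  · apply hR
    have h5 : algebraMap F E ((Algebra.norm F (1 + algebraMap F K c * t) - 1) / c) = r := by
      rw [map_div₀, map_sub, hn, map_one, add_sub_cancel_left, mul_div_cancel_left₀ _ hcE0]
    have h6 : IsIntegral R (algebraMap F E
        ((Algebra.norm F (1 + algebraMap F K c * t) - 1) / c)) := by
      rw [h5]
      exact hr
    exact (isIntegral_algebraMap_iff (algebraMap F E).injective).1 h6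
  · field_simp
    ring

end Pool.Agent.N356.LT

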